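import Mathlib
import Pool.Agent.Helper4.RD.PLower

/-!
# Relative Davenport constants of cosets: finite abelian `p`-groups
-/

namespace Pool.Agent.Results.MP_ee6f41_nt.PGroup

open RelDav

/-- **Q1 for every finite abelian `p`-group.** Let `G` be a finite abelian `p`-group (of any
rank), `H` a subgroup, and `α, β` cosets of `H` with `β` in the cyclic subgroup of `G / H`
generated by `α`. Then `d_β(G) ≤ d_α(G)`. -/
theorem result {G : Type*} [AddCommGroup G] [Finite G] (p : ℕ) (hp : p.Prime)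
    (hG : ∀ x : G, ∃ k : ℕ, p ^ k • x = 0) (H : AddSubgroup G) (α β : G ⧸ H)
    (hβ : β ∈ AddSubgroup.zmultiples α) :
    smallDavenport {x : G | (x : G ⧸ H) = β} ≤ smallDavenport {x : G | (x : G ⧸ H) = α} := by
  classical
  have : Fact p.Prime := ⟨hp⟩
  obtain ⟨ι, hι, q, hq, e, ⟨F⟩⟩ := AddCommGroup.equiv_directSum_zmod_of_finite G
  let E : G ≃+ ∀ i, ZMod (q i ^ e i) := F.trans (DirectSum.addEquivProd _)
  have hn : ∀ i, ∃ t, q i ^ e i = p ^ t := by
    intro i
    obtain ⟨k, hk⟩ := hG (E.symm (Pi.single i 1))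
    have h1 : p ^ k • (Pi.single i (1 : ZMod (q i ^ e i)) : ∀ i, ZMod (q i ^ e i)) = 0 := by
      rw [← AddEquiv.apply_symm_apply E (Pi.single i 1), ← map_nsmul, hk, map_zero]
    have h2 := congrFun h1 i
    rw [Pi.smul_apply, Pi.single_eq_same, nsmul_eq_mul, mul_one, Pi.zero_apply,
      ZMod.natCast_eq_zero_iff] at h2
    obtain ⟨t, _, ht⟩ := (Nat.dvd_prime_pow hp).mp h2
    exact ⟨t, ht⟩
  choose e' he' using hn
  obtain ⟨a, ha⟩ := QuotientAddGroup.mk_surjective α
  subst ha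
  refine q1_of H a β hβ ?_
  intro T k hT hT0 hb _
  exact q1_p p (fun i => q i ^ e i) e' he' E H a T k hT hT0 hb

end Pool.Agent.Results.MP_ee6f41_nt.PGroup
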