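import Mathlib
import Pool.Agent.Helper4.RD.Soft
import Pool.Agent.Results.MP_ee6f41_nt.PGroup

/-!
# Relative Davenport constants of cosets: groups of exponent dividing a product of two primes
-/

namespace Pool.Agent.Results.MP_ee6f41_nt.ExponentPQ

open RelDav

/-- transport along an automorphism -/
theorem transport {G : Type*} [AddCommGroup G] {x a : G} (θ : G ≃+ G) (hθ : θ x = a)
    {T : Multiset G} (hT : ZSF T) (hx : T.sum = x) :
    ∃ T' : Multiset G, ZSF T' ∧ T'.sum = a ∧ Multiset.card T' = Multiset.card T :=
  ⟨T.map θ, hT.map θ, by rw [← map_multiset_sum, hx, hθ], Multiset.card_map _ _⟩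

theorem nsmul_sum_eq_zero {G : Type*} [AddCommGroup G] (n : ℕ) (M : Multiset G)
    (h : ∀ x ∈ M, n • x = 0) : n • M.sum = 0 :=
  AddSubgroup.multiset_sum_mem (nsmulAddMonoidHom n : G →+ G).ker M h

/-- The case of two different primes, for sequences. -/
theorem key {G : Type*} [AddCommGroup G] (p q : ℕ) [Fact p.Prime] [Fact q.Prime] (hpq : p ≠ q)
    (hG : ∀ x : G, (p * q) • x = 0) (H : AddSubgroup G) (a : G) (T : Multiset G) (k : ℤ)
    (hT : ZSF T) (hT0 : T ≠ 0) (hb : T.sum - k • a ∈ H) :
    ∃ T' : Multiset G, Multiset.card T ≤ Multiset.card T' ∧ T'.sum - a ∈ H ∧ ZSF T' := by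
  classical
  have hp : p.Prime := Fact.out
  have hq : q.Prime := Fact.out
  have hb0 : T.sum ≠ 0 := hT T le_rfl hT0
  have hcop : Nat.Coprime p q := (Nat.coprime_primes hp hq).mpr hpq
  have hzero : ∀ x : G, p • x = 0 → q • x = 0 → x = 0 := by
    intro x h1 h2
    have h3 : addOrderOf x ∣ Nat.gcd p q := Nat.dvd_gcd (addOrderOf_dvd_of_nsmul_eq_zero h1)
      (addOrderOf_dvd_of_nsmul_eq_zero h2)
    rw [hcop.gcd_eq_one, Nat.dvd_one] at h3
    exact AddMonoid.addOrderOf_eq_one_iff.mp h3
  -- it is enough to reach a given element of the coset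
  suffices h : ∃ a' : G, a' - a ∈ H ∧ ∃ T' : Multiset G, ZSF T' ∧ T'.sum = a' ∧
      Multiset.card T ≤ Multiset.card T' by
    obtain ⟨a', h1, T', h2, h3, h4⟩ := h
    exact ⟨T', h4, by rw [h3]; exact h1, h2⟩
  by_cases hcase : ∃ a' : G, a' - a ∈ H ∧ p • a' ≠ 0 ∧ q • a' ≠ 0
  · -- the coset contains an element with both components nonzero
    obtain ⟨a', ha', hpa, hqa⟩ := hcase
    refine ⟨a', ha', ?_⟩
    by_cases hmem : ∃ x ∈ T, p • x ≠ 0 ∧ q • x ≠ 0
    · obtain ⟨x, hx, hpx, hqx⟩ := hmem
      obtain ⟨T', h1, h2, h3⟩ := hT.rotate hx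
      obtain ⟨θ, hθ⟩ := exists_aut p q hpq hG x a' (by simp [hpx, hpa]) (by simp [hqx, hqa])
      obtain ⟨T'', h4, h5, h6⟩ := transport θ hθ h1 h2
      exact ⟨T'', h4, h5, by omega⟩
    · by_cases hbt : p • T.sum ≠ 0 ∧ q • T.sum ≠ 0
      · obtain ⟨θ, hθ⟩ := exists_aut p q hpq hG T.sum a' (by simp [hbt.1, hpa])
          (by simp [hbt.2, hqa])
        obtain ⟨T'', h4, h5, h6⟩ := transport θ hθ hT rfl
        exact ⟨T'', h4, h5, by omega⟩
      · -- all terms in one component
        push Not at hmem
        have hsplit : T = T.filter (fun x => p • x = 0) + T.filter (fun x => ¬ p • x = 0) :=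
          (Multiset.filter_add_not _ _).symm
        have hV : p • (T.filter (fun x => p • x = 0)).sum = 0 := by
          refine nsmul_sum_eq_zero p _ ?_
          intro x hx
          exact (Multiset.mem_filter.mp hx).2
        have hW : q • (T.filter (fun x => ¬ p • x = 0)).sum = 0 := by
          refine nsmul_sum_eq_zero q _ ?_
          intro x hx
          have := Multiset.mem_filter.mp hx
          exact hmem x this.1 this.2
        have hsum : T.sum = (T.filter (fun x => p • x = 0)).sum +
            (T.filter (fun x => ¬ p • x = 0)).sum := by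
          rw [← Multiset.sum_add, ← hsplit]
        have hor : (∀ x ∈ T, p • x = 0) ∨ (∀ x ∈ T, q • x = 0) := by
          by_cases hpb : p • T.sum = 0
          · left
            have h1 : p • (T.filter (fun x => ¬ p • x = 0)).sum = 0 := by
              rw [hsum, smul_add, hV, zero_add] at hpb
              exact hpb
            have h2 := hzero _ h1 hW
            have h3 : T.filter (fun x => ¬ p • x = 0) = 0 := by
              by_contra hne
              exact hT _ (Multiset.filter_le _ _) hne h2
            intro x hx
            by_contra hpx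
            have : x ∈ T.filter (fun x => ¬ p • x = 0) := Multiset.mem_filter.mpr ⟨hx, hpx⟩
            rw [h3] at this
            exact absurd this (Multiset.notMem_zero x)
          · right
            have hqb : q • T.sum = 0 := by
              by_contra h
              exact hbt ⟨hpb, h⟩
            have h1 : q • (T.filter (fun x => p • x = 0)).sum = 0 := by
              rw [hsum, smul_add, hW, add_zero] at hqb
              exact hqb
            have h2 := hzero _ hV h1
            have h3 : T.filter (fun x => p • x = 0) = 0 := by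
              by_contra hne
              exact hT _ (Multiset.filter_le _ _) hne h2
            intro x hx
            by_cases hpx : p • x = 0
            · have : x ∈ T.filter (fun x => p • x = 0) := Multiset.mem_filter.mpr ⟨hx, hpx⟩
              rw [h3] at this
              exact absurd this (Multiset.notMem_zero x)
            · exact hmem x hx hpx
        rcases hor with h | h
        · obtain ⟨T', h1, h2, h3⟩ := hT.split ((nsmulAddMonoidHom p : G →+ G).ker)
            (fun x hx => h x hx) (a := a') (fun hcon => hpa hcon)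
          exact ⟨T', h1, h2, by omega⟩
        · obtain ⟨T', h1, h2, h3⟩ := hT.split ((nsmulAddMonoidHom q : G →+ G).ker)
            (fun x hx => h x hx) (a := a') (fun hcon => hqa hcon)
          exact ⟨T', h1, h2, by omega⟩
  · -- the whole coset lies in one component
    push Not at hcase
    obtain ⟨u, v, huv⟩ : ∃ u v : ℤ, u * p + v * q = 1 := by
      have := Nat.gcd_eq_gcd_ab p q
      rw [hcop.gcd_eq_one] at this
      refine ⟨Nat.gcdA p q, Nat.gcdB p q, ?_⟩
      have h : (1 : ℤ) = p * Nat.gcdA p q + q * Nat.gcdB p q := by exact_mod_cast this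
      rw [h]; ring
    have hGz : ∀ x : G, ((p * q : ℕ) : ℤ) • x = 0 := fun x => by rw [natCast_zsmul]; exact hG x
    have hone : (∀ x : G, x - a ∈ H → p • x = 0) ∨ (∀ x : G, x - a ∈ H → q • x = 0) := by
      by_contra hcon
      push Not at hcon
      obtain ⟨⟨x, hx, hpx⟩, ⟨y, hy, hqy⟩⟩ := hcon
      -- `z` with the `q`-component of `x` and the `p`-component of `y`
      have hz : a + ((u * p) • (x - a) + (v * q) • (y - a)) - a ∈ H := by
        rw [add_sub_cancel_left]
        exact H.add_mem (H.zsmul_mem hx _) (H.zsmul_mem hy _)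
      have hpz : p • (a + ((u * p) • (x - a) + (v * q) • (y - a))) = p • x := by
        rw [← natCast_zsmul, ← natCast_zsmul]
        have e1 : (p : ℤ) • (a + ((u * p) • (x - a) + (v * q) • (y - a))) =
            (p : ℤ) • x + (-v) • (((p * q : ℕ) : ℤ) • (x - a)) +
              v • (((p * q : ℕ) : ℤ) • (y - a)) := by
          have e2 : a = x - (u * p + v * q) • (x - a) := by rw [huv, one_smul]; abel
          conv_lhs => rw [show a + ((u * p) • (x - a) + (v * q) • (y - a)) =
            x - (v * q) • (x - a) + (v * q) • (y - a) by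
              have e3 : (u * p : ℤ) • (x - a) = (x - a) - (v * q) • (x - a) := by
                rw [eq_sub_iff_add_eq, ← add_smul, huv, one_smul]
              rw [e3]; abel]
          rw [smul_add, smul_sub, smul_smul, smul_smul, smul_smul, smul_smul]
          push_cast
          rw [neg_mul, neg_smul, show (p : ℤ) * (v * q) = v * (p * q) by ring]
          abel
        rw [e1, hGz, hGz, smul_zero, smul_zero, add_zero, add_zero]
      have hqz : q • (a + ((u * p) • (x - a) + (v * q) • (y - a))) = q • y := by
        rw [← natCast_zsmul, ← natCast_zsmul]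
        have e1 : (q : ℤ) • (a + ((u * p) • (x - a) + (v * q) • (y - a))) =
            (q : ℤ) • y + (-u) • (((p * q : ℕ) : ℤ) • (y - a)) +
              u • (((p * q : ℕ) : ℤ) • (x - a)) := by
          conv_lhs => rw [show a + ((u * p) • (x - a) + (v * q) • (y - a)) =
            y - (u * p) • (y - a) + (u * p) • (x - a) by
              have e3 : (v * q : ℤ) • (y - a) = (y - a) - (u * p) • (y - a) := by
                rw [eq_sub_iff_add_eq, ← add_smul, add_comm (v * (q : ℤ)), huv, one_smul]
              rw [e3]; abel]
          rw [smul_add, smul_sub, smul_smul, smul_smul, smul_smul, smul_smul]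
          push_cast
          rw [neg_mul, neg_smul, show (q : ℤ) * (u * p) = u * (p * q) by ring]
          abel
        rw [e1, hGz, hGz, smul_zero, smul_zero, add_zero, add_zero]
      exact hqy (by rw [← hqz]; exact hcase _ hz (by rw [hpz]; exact hpx))
    -- common end: everything in the component killed by `r`
    have hend : ∀ r s : ℕ, (∀ x : G, r • x = 0 → s • x = 0 → x = 0) →
        (∀ x : G, x - a ∈ H → r • x = 0) → ∀ (_ : ∀ x y : G, (r • x = 0 ↔ r • y = 0) →
          (s • x = 0 ↔ s • y = 0) → ∃ θ : G ≃+ G, θ x = y),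
        ∃ a' : G, a' - a ∈ H ∧ ∃ T' : Multiset G, ZSF T' ∧ T'.sum = a' ∧
          Multiset.card T ≤ Multiset.card T' := by
      intro r s hrs hrx haut
      have ha : r • a = 0 := hrx a (by rw [sub_self]; exact H.zero_mem)
      have hH : ∀ h ∈ H, r • h = 0 := by
        intro h hh
        have := hrx (a + h) (by rw [add_sub_cancel_left]; exact hh)
        rwa [smul_add, ha, zero_add] at this
      have hrb : r • T.sum = 0 := by
        have h1 := hH _ hb
        rw [smul_sub, smul_comm, ha, smul_zero, sub_zero] at h1
        exact h1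
      have hsb : s • T.sum ≠ 0 := fun h => hb0 (hrs _ hrb h)
      have hex : ∃ a', a' - a ∈ H ∧ a' ≠ 0 := by
        by_contra hcon
        push Not at hcon
        apply hb0
        have ha0 := hcon a (by rw [sub_self]; exact H.zero_mem)
        have h2 := hcon (a + (T.sum - k • a)) (by rw [add_sub_cancel_left]; exact hb)
        rw [ha0, smul_zero, sub_zero, zero_add] at h2
        exact h2
      obtain ⟨a', ha', ha'0⟩ := hex
      have hra : r • a' = 0 := hrx a' ha'
      have hsa : s • a' ≠ 0 := fun h => ha'0 (hrs _ hra h)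
      obtain ⟨θ, hθ⟩ := haut T.sum a' (by simp [hrb, hra]) (by simp [hsb, hsa])
      obtain ⟨T'', h4, h5, h6⟩ := transport θ hθ hT rfl
      exact ⟨a', ha', T'', h4, h5, by omega⟩
    rcases hone with h | h
    · exact hend p q hzero h (fun x y h1 h2 => exists_aut p q hpq hG x y h1 h2)
    · exact hend q p (fun x h1 h2 => hzero x h2 h1) h
        (fun x y h1 h2 => exists_aut p q hpq hG x y h2 h1)

/-- **Q1 for every finite abelian group whose exponent divides a product of two primes.** Let
`p, q` be primes and `G` a finite abelian group with `p q G = 0` (for `p ≠ q` this says that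
`G ≃ C_p^r ⊕ C_q^s`), `H` a subgroup, and `α, β` cosets of `H` with `β` in the cyclic subgroup
of `G / H` generated by `α`. Then `d_β(G) ≤ d_α(G)`. -/
theorem result {G : Type*} [AddCommGroup G] [Finite G] (p q : ℕ) (hp : p.Prime) (hq : q.Prime)
    (hG : ∀ x : G, (p * q) • x = 0) (H : AddSubgroup G) (α β : G ⧸ H)
    (hβ : β ∈ AddSubgroup.zmultiples α) :
    smallDavenport {x : G | (x : G ⧸ H) = β} ≤ smallDavenport {x : G | (x : G ⧸ H) = α} := by
  by_cases hpq : p = q
  · subst hpq
    exact PGroup.result p hp (fun x => ⟨2, by rw [pow_two]; exact hG x⟩) H α β hβ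
  · have : Fact p.Prime := ⟨hp⟩
    have : Fact q.Prime := ⟨hq⟩
    obtain ⟨a, ha⟩ := QuotientAddGroup.mk_surjective α
    subst ha
    refine q1_of H a β hβ ?_
    intro T k hT hT0 hb _
    exact key p q hpq hG H a T k hT hT0 hb

end Pool.Agent.Results.MP_ee6f41_nt.ExponentPQ
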