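import Mathlib
import Pool.Agent.Helper4.RD.Soft

/-!
# Relative Davenport constants of cosets: generators of a cyclic quotient of prime power order
-/

namespace Pool.Agent.Results.MP_ee6f41_nt.PrimePowerQuot

open RelDav

/-- **Arbitrary finite abelian groups, cyclic quotients of prime power order.** Let `G` be a
finite abelian group, `H` a subgroup of prime power index `p ^ k`, and let the coset `α` generate
`G / H` (so that `G / H` is cyclic). Then `d_S(G) ≤ d_α(G)` for every subset `S` of `G`; in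
particular `d_β(G) ≤ d_α(G)` for all cosets `β` of `H`. -/
theorem result {G : Type*} [AddCommGroup G] [Finite G] (H : AddSubgroup G) (p k : ℕ)
    (hp : p.Prime) (hindex : H.index = p ^ k) (α : G ⧸ H)
    (hα : ∀ γ : G ⧸ H, γ ∈ AddSubgroup.zmultiples α) (S : Set G) :
    smallDavenport S ≤ smallDavenport {x : G | (x : G ⧸ H) = α} := by
  classical
  obtain ⟨a, ha⟩ := QuotientAddGroup.mk_surjective α
  unfold smallDavenport
  by_cases hne : {l | ∃ T : Multiset G, Multiset.card T = l ∧ T.sum ∈ S ∧ ZSF T}.Nonempty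
  swap
  · rw [Set.not_nonempty_iff_eq_empty] at hne
    rw [hne, csSup_empty]
    exact Nat.zero_le _
  refine csSup_le hne ?_
  rintro l ⟨T, rfl, _, hT⟩
  by_cases hT0 : T = 0
  · rw [hT0, Multiset.card_zero]
    exact Nat.zero_le _
  suffices h : ∃ T' : Multiset G, Multiset.card T ≤ Multiset.card T' ∧
      ((T'.sum : G) : G ⧸ H) = α ∧ ZSF T' by
    obtain ⟨T', h1, h2, h3⟩ := h
    exact h1.trans (le_csSup (bdd_of_finite _) ⟨T', rfl, h2, h3⟩)
  -- the order of `G / H`
  have hcardq : Nat.card (G ⧸ H) = p ^ k := hindex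
  have hord : ∀ γ : G ⧸ H, (∀ δ : G ⧸ H, δ ∈ AddSubgroup.zmultiples γ) →
      addOrderOf γ = p ^ k := by
    intro γ hγ
    rw [← hcardq]
    exact addOrderOf_eq_card_of_forall_mem_zmultiples hγ
  by_cases hgen : ∃ x ∈ T, ∀ γ : G ⧸ H, γ ∈ AddSubgroup.zmultiples (x : G ⧸ H)
  · -- a term generating `G / H`
    obtain ⟨x, hx, hxgen⟩ := hgen
    obtain ⟨m, hm⟩ := AddSubgroup.mem_zmultiples_iff.mp (hxgen α)
    obtain ⟨l, hl⟩ := AddSubgroup.mem_zmultiples_iff.mp (hα (x : G ⧸ H))
    -- `m l = 1` modulo `p ^ k`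
    have hml : ((m * l : ℤ) : ZMod (p ^ k)) = 1 := by
      have h1 : (m * l - 1 : ℤ) • α = 0 := by
        rw [sub_smul, mul_smul, hl, hm, one_smul, sub_self]
      have h2 : ((addOrderOf α : ℕ) : ℤ) ∣ (m * l - 1) := addOrderOf_dvd_iff_zsmul_eq_zero.mpr h1
      rw [hord α hα] at h2
      have h3 := (ZMod.intCast_zmod_eq_zero_iff_dvd (m * l - 1) (p ^ k)).mpr h2
      rw [Int.cast_sub, Int.cast_one, sub_eq_zero] at h3
      exact h3
    have hmu : IsUnit ((m : ℤ) : ZMod (p ^ k)) := by
      rw [Int.cast_mul] at hml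
      exact IsUnit.of_mul_eq_one _ hml
    obtain ⟨u, hu⟩ := hmu
    have hdvd : p ^ k ∣ Nat.card G := by rw [← hindex]; exact H.index_dvd_card
    have hN : NeZero (Nat.card G) := ⟨Nat.card_pos.ne'⟩
    obtain ⟨U, hU⟩ := ZMod.unitsMap_surjective hdvd u
    -- the natural number `w`
    have hcop : Nat.Coprime (U : ZMod (Nat.card G)).val (Nat.card G) := ZMod.val_coe_unit_coprime U
    have hpk : NeZero (p ^ k) := ⟨(pow_pos hp.pos k).ne'⟩
    have hw : (((U : ZMod (Nat.card G)).val : ℕ) : ZMod (p ^ k)) = ((m : ℤ) : ZMod (p ^ k)) := by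
      rw [← hu, ← hU, ZMod.unitsMap_val, ZMod.natCast_val]
    set w := (U : ZMod (Nat.card G)).val with hwdef
    -- multiplication by `w` is an automorphism
    have hinj : Function.Injective (nsmulAddMonoidHom w : G →+ G) := by
      rw [injective_iff_map_eq_zero]
      intro z hz
      have h1 : w • z = 0 := hz
      have h2 : Nat.card G • z = 0 := card_nsmul_eq_zero'
      have h3 : addOrderOf z ∣ Nat.gcd w (Nat.card G) :=
        Nat.dvd_gcd (addOrderOf_dvd_of_nsmul_eq_zero h1) (addOrderOf_dvd_of_nsmul_eq_zero h2)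
      rw [hcop.gcd_eq_one, Nat.dvd_one] at h3
      exact AddMonoid.addOrderOf_eq_one_iff.mp h3
    let θ : G ≃+ G := AddEquiv.ofBijective (nsmulAddMonoidHom w : G →+ G)
      ⟨hinj, Finite.injective_iff_surjective.mp hinj⟩
    obtain ⟨T', h1, h2, h3⟩ := hT.rotate hx
    refine ⟨T'.map θ, ?_, ?_, h1.map θ⟩
    · rw [Multiset.card_map, h3]
    · rw [← map_multiset_sum, h2]
      change ((w • x : G) : G ⧸ H) = α
      rw [QuotientAddGroup.mk_nsmul, ← hm, ← natCast_zsmul, ← sub_eq_zero, ← sub_smul]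
      have h4 : ((p ^ k : ℕ) : ℤ) ∣ ((w : ℕ) : ℤ) - m := by
        rw [← ZMod.intCast_zmod_eq_zero_iff_dvd, Int.cast_sub, Int.cast_natCast, hw, sub_self]
      rw [← hord (x : G ⧸ H) hxgen] at h4
      exact addOrderOf_dvd_iff_zsmul_eq_zero.mp h4
  · -- all terms lie in a proper subgroup not containing `a`
    have hgen' : ∀ x ∈ T, ¬ ∀ γ : G ⧸ H, γ ∈ AddSubgroup.zmultiples (x : G ⧸ H) :=
      fun x hx h => hgen ⟨x, hx, h⟩
    let M : AddSubgroup G := (AddSubgroup.zmultiples (p • α)).comap (QuotientAddGroup.mk' H)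
    have hcopr : ∀ m : ℤ, ¬ (p : ℤ) ∣ m → ∃ u v : ℤ, u * m + v * (p ^ k : ℕ) = 1 := by
      intro m hm
      have h1 : IsCoprime m ((p : ℤ) ^ k) := by
        refine IsCoprime.pow_right ?_
        have h2 : IsCoprime (p : ℤ) m :=
          (Prime.coprime_iff_not_dvd (Nat.prime_iff_prime_int.mp hp)).mpr hm
        exact h2.symm
      obtain ⟨u, v, huv⟩ := h1
      exact ⟨u, v, by rw [← huv]; push_cast; ring⟩
    have hTM : ∀ x ∈ T, x ∈ M := by
      intro x hx
      obtain ⟨m, hm⟩ := AddSubgroup.mem_zmultiples_iff.mp (hα (x : G ⧸ H))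
      change (x : G ⧸ H) ∈ AddSubgroup.zmultiples (p • α)
      by_cases hpm : (p : ℤ) ∣ m
      · obtain ⟨c, rfl⟩ := hpm
        rw [AddSubgroup.mem_zmultiples_iff]
        exact ⟨c, by rw [← hm, ← natCast_zsmul, smul_smul, mul_comm]⟩
      · exfalso
        apply hgen' x hx
        obtain ⟨u, v, huv⟩ := hcopr m hpm
        have h1 : u • (x : G ⧸ H) = α := by
          have h2 : ((p ^ k : ℕ) : ℤ) • α = 0 := by
            rw [natCast_zsmul, ← hord α hα]
            exact addOrderOf_nsmul_eq_zero α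
          calc u • (x : G ⧸ H) = (u * m) • α := by rw [mul_smul, hm]
            _ = (u * m) • α + v • (((p ^ k : ℕ) : ℤ) • α) := by rw [h2, smul_zero, add_zero]
            _ = (u * m + v * (p ^ k : ℕ)) • α := by rw [add_smul, mul_smul v]
            _ = α := by rw [huv, one_smul]
        intro γ
        obtain ⟨c, hc⟩ := AddSubgroup.mem_zmultiples_iff.mp (hα γ)
        rw [AddSubgroup.mem_zmultiples_iff]
        exact ⟨c * u, by rw [mul_smul, h1, hc]⟩
    have hk0 : k ≠ 0 := by
      rintro rfl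
      obtain ⟨x, hx⟩ := Multiset.exists_mem_of_ne_zero hT0
      apply hgen' x hx
      intro γ
      have : Subsingleton (G ⧸ H) := by
        rw [← Finite.card_le_one_iff_subsingleton, hcardq, pow_zero]
      rw [Subsingleton.elim γ 0]
      exact AddSubgroup.zero_mem _
    have haM : a ∉ M := by
      intro hcon
      have h1 : (a : G ⧸ H) ∈ AddSubgroup.zmultiples (p • α) := hcon
      rw [ha] at h1
      obtain ⟨c, hc⟩ := AddSubgroup.mem_zmultiples_iff.mp h1
      have h2 : (c * p - 1 : ℤ) • α = 0 := by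
        rw [sub_smul, mul_smul, natCast_zsmul, hc, one_smul, sub_self]
      have h3 := addOrderOf_dvd_iff_zsmul_eq_zero.mpr h2
      rw [hord α hα] at h3
      have h4 : (p : ℤ) ∣ ((p ^ k : ℕ) : ℤ) := by
        push_cast
        exact dvd_pow_self _ hk0
      have h5 : (p : ℤ) ∣ 1 := by
        have h6 := h4.trans h3
        have h7 : (p : ℤ) ∣ c * p := Dvd.intro_left c rfl
        have := (Int.dvd_iff_dvd_of_dvd_sub h6).mp h7
        exact this
      have h6 : p ∣ 1 := by exact_mod_cast h5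
      exact hp.one_lt.ne' (Nat.dvd_one.mp h6)
    obtain ⟨T', h1, h2, h3⟩ := hT.split M hTM haM
    exact ⟨T', by omega, by rw [h2, ha], h1⟩

end Pool.Agent.Results.MP_ee6f41_nt.PrimePowerQuot
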