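import Mathlib
import Pool.Agent.Helper4.RD.Coset

/-!
# Relative Davenport constants of cosets: groups of rank at most two
-/

namespace Pool.Agent.Results.MP_ee6f41_nt.RankTwo

/-- `T` has no nonempty zero-sum subsequence. -/
def ZeroSumFree {G : Type*} [AddCommGroup G] (T : Multiset G) : Prop :=
  ∀ U ≤ T, U ≠ 0 → U.sum ≠ 0

/-- The small `S`-relative Davenport constant: the supremum (a maximum, when `G` is finite) of
the lengths of the sequences in `G` with sum in `S` and no nonempty zero-sum subsequence. -/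
noncomputable def smallDavenport {G : Type*} [AddCommGroup G] (S : Set G) : ℕ :=
  sSup {l | ∃ T : Multiset G, Multiset.card T = l ∧ T.sum ∈ S ∧ ZeroSumFree T}

theorem zeroSumFree_map {G K : Type*} [AddCommGroup G] [AddCommGroup K] (e : G ≃+ K)
    {T : Multiset G} (hT : ZeroSumFree T) : ZeroSumFree (T.map e) := by
  intro U hU hU0 hUs
  have h1 : U.map e.symm ≤ T := by
    have := Multiset.map_le_map (f := e.symm) hU
    rw [Multiset.map_map] at this
    have h2 : (⇑e.symm ∘ ⇑e) = id := by funext x; simp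
    rw [h2, Multiset.map_id] at this
    exact this
  refine hT _ h1 (by rwa [Ne, Multiset.map_eq_zero]) ?_
  rw [← map_multiset_sum, hUs, map_zero]

theorem bdd {G : Type*} [AddCommGroup G] {m n : ℕ} (hn : 0 < n) (hmn : m ∣ n)
    (e : G ≃+ ZMod m × ZMod n) (S : Set G) :
    BddAbove {l | ∃ T : Multiset G, Multiset.card T = l ∧ T.sum ∈ S ∧ ZeroSumFree T} := by
  refine ⟨m + n - 1, ?_⟩
  rintro l ⟨T, rfl, _, hT⟩
  have hT' : RelDav.ZSF (T.map e) := zeroSumFree_map e hT
  obtain ⟨f, hf⟩ := RelDav.exists_family (T.map e)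
  by_contra hcon
  have hc : (Finset.univ : Finset (Fin (Multiset.card (T.map e)))).card = Multiset.card T := by
    simp
  obtain ⟨A, h1, h2, h3⟩ := (RelDav.rank_two m n hn hmn).1 _ Finset.univ f (by rw [hc]; omega)
  exact hT'.family f hf ⟨A, h1, h2, h3⟩

/-- **Q1 for every finite abelian group of rank at most two.** Let `G ≃ Z/m × Z/n` with `m ∣ n`
(so `G` is an arbitrary finite abelian group of rank at most `2`), let `H` be a subgroup of `G`,
and let `α, β` be cosets of `H` with `β` in the cyclic subgroup of `G / H` generated by `α`.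
Then `d_β(G) ≤ d_α(G)`. -/
theorem result {G : Type*} [AddCommGroup G] (m n : ℕ) (hn : 0 < n) (hmn : m ∣ n)
    (e : G ≃+ ZMod m × ZMod n) (H : AddSubgroup G) (α β : G ⧸ H)
    (hβ : β ∈ AddSubgroup.zmultiples α) :
    smallDavenport {x : G | (x : G ⧸ H) = β} ≤ smallDavenport {x : G | (x : G ⧸ H) = α} := by
  have hm : 0 < m := Nat.pos_of_dvd_of_pos hmn hn
  unfold smallDavenport
  by_cases hne : {l | ∃ T : Multiset G, Multiset.card T = l ∧
      T.sum ∈ {x : G | (x : G ⧸ H) = β} ∧ ZeroSumFree T}.Nonempty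
  swap
  · rw [Set.not_nonempty_iff_eq_empty] at hne
    rw [hne, csSup_empty]
    exact Nat.zero_le _
  refine csSup_le hne ?_
  rintro l ⟨T, rfl, hTs, hT⟩
  -- it is enough to find one good sequence
  suffices h : ∃ T' : Multiset G, Multiset.card T ≤ Multiset.card T' ∧
      ((T'.sum : G) : G ⧸ H) = α ∧ ZeroSumFree T' by
    obtain ⟨T', h1, h2, h3⟩ := h
    exact h1.trans (le_csSup (bdd hn hmn e _) ⟨T', rfl, h2, h3⟩)
  obtain ⟨a, ha⟩ := QuotientAddGroup.mk_surjective α
  obtain ⟨k, hk⟩ := AddSubgroup.mem_zmultiples_iff.mp hβ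
  have hT' : RelDav.ZSF (T.map e) := zeroSumFree_map e hT
  by_cases h0 : T = 0
  · subst h0
    by_cases ha0 : a = 0
    · refine ⟨0, le_rfl, ?_, ?_⟩
      · rw [Multiset.sum_zero, ← ha, ha0]
      · intro U hU hU0
        exact absurd (Multiset.le_zero.mp hU) hU0
    · refine ⟨{a}, by simp, by rw [Multiset.sum_singleton, ha], ?_⟩
      intro U hU hU0 hUs
      rcases Multiset.le_singleton.mp hU with h | h
      · exact hU0 h
      · rw [h, Multiset.sum_singleton] at hUs
        exact ha0 hUs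
  have hb0 : T.sum ≠ 0 := hT T le_rfl h0
  have hsum : (T.map e).sum = e T.sum := by rw [map_multiset_sum]
  have heb : e T.sum ≠ 0 := fun h => hb0 ((AddEquiv.map_eq_zero_iff e).mp h)
  have hbk : T.sum - k • a ∈ H := by
    have hb : ((T.sum : G) : G ⧸ H) = β := hTs
    rw [← QuotientAddGroup.eq_zero_iff, QuotientAddGroup.mk_sub, QuotientAddGroup.mk_zsmul, hb, ha,
      hk, sub_self]
  obtain ⟨a', ha', ha'0, hle⟩ := RelDav.coset_best hn hmn (H.map e.toAddMonoidHom) (e a) (e T.sum) k
    ⟨T.sum - k • a, hbk, by simp⟩ heb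
  have hup := RelDav.upper_value hn hmn (T.map e) hT' (by rw [hsum]; exact heb)
  rw [hsum, Multiset.card_map] at hup
  obtain ⟨T', hT'1, hT'2, hT'3⟩ := RelDav.lower_value hn hmn a' ha'0
  refine ⟨T'.map e.symm, ?_, ?_, ?_⟩
  · rw [Multiset.card_map]; omega
  · have h1 : (T'.map e.symm).sum = e.symm a' := by rw [← map_multiset_sum, hT'2]
    rw [h1]
    obtain ⟨y, hy, hye⟩ := ha'
    have h2 : e.symm a' = a + y := by
      have : e y = a' - e a := hye
      have h3 : a' = e (a + y) := by rw [map_add, this]; abel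
      rw [h3, AddEquiv.symm_apply_apply]
    rw [h2, QuotientAddGroup.mk_add, (QuotientAddGroup.eq_zero_iff y).mpr hy, add_zero, ha]
  · exact zeroSumFree_map e.symm hT'1

end Pool.Agent.Results.MP_ee6f41_nt.RankTwo
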